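import Pool.Agent.Lib.MP_a7ce8b_al.Local

/-! A countable locally finite primitive group with (*) is locally embedded, as a permutation
group, in finite primitive groups with (*). -/

namespace Pool.Agent.Results.MP_a7ce8b_al.LocalReduction

open Pool.Agent.Lib.MP_a7ce8b_al

theorem result (G Ω : Type*) [Group G] [MulAction G Ω] [Countable G] [Nontrivial Ω]
    (hlf : IsLocallyFinite G) (hG : MulAction.IsPreprimitive G Ω) (hstar : Star G Ω)
    (α : Ω) (H : Subgroup G) [Finite H] :
    ∃ K L : Subgroup G, Finite K ∧ H ≤ K ∧ L ≤ K ∧ K ⊓ MulAction.stabilizer G α ≤ L ∧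
      L ⊓ H ≤ MulAction.stabilizer G α ∧ Nontrivial (K ⧸ L.subgroupOf K) ∧
      MulAction.IsPreprimitive K (K ⧸ L.subgroupOf K) ∧
      Star (MulAction.toPermHom K (K ⧸ L.subgroupOf K)).range (K ⧸ L.subgroupOf K) :=
  local_reduction hlf hG hstar α H

end Pool.Agent.Results.MP_a7ce8b_al.LocalReduction
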